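import Pool.Agent.Y836.SF.Amen
import Pool.Agent.Y836.SF.Cay

/-!
# MP_2a8190_pr, Q1: return probabilities of random walk on dynamical percolation, uniform constants

`dynReturn G μ p o t` is the annealed return probability `Q_t(o,o)` and `srwReturn G o t` is the
return probability `P_t(o,o)` of continuous-time simple random walk (definitions of the starting
library `Pool.H102.DP`). The comparison of the two holds on every vertex-transitive graph; if `(G, o)`
is a local limit of finite graphs (for example if `G` is vertex-transitive and amenable, or a Cayley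
graph of a residually finite group), the lower bound is `P_t ≤ Q_t`, without any constant, and the
upper bound has explicit constants which depend only on `μ`, `p` and the degree.
-/

set_option autoImplicit false

namespace Pool.Agent.Results.MP_2a8190_pr.UniformComparison

open Finset Pool.H102.DP Pool.Agent.Y836.SF

/-- the constant `c = p / (2 + (4 d + 1) / μ)` -/
noncomputable def cst (μ p : ℝ) (d : ℕ) : ℝ := p / (2 + (4 * d + 1) / μ)

theorem cst_eq (μ p : ℝ) (d : ℕ) : cst μ p d = cc μ p d := rfl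

/-- (1) The comparison of return probabilities holds on every connected, locally finite,
vertex-transitive graph. (2) If `(G, o)` is a local limit of finite graphs of degree at most `d`, then
`P_t ≤ Q_t ≤ P_{ct} + e^{-ct}` for all `t ≥ 0`, with `c = p / (2 + (4 d + 1) / μ)`, and
`Q_t ≤ C P_{t/C}` for all `t ≥ 0`, with `C = max 2 (max (1/c) (d/c))`. (3) Vertex-transitive graphs
with Følner sets are local limits of finite graphs. (4) So are all Cayley graphs of residually finite
groups. -/
theorem result :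
    (∀ (V : Type) (G : SimpleGraph V) [G.LocallyFinite], G.Connected →
      (∀ x y : V, ∃ φ : G ≃g G, φ x = y) → ∀ μ p : ℝ, 0 < μ → 0 < p → p ≤ 1 → ∀ o : V,
      ∃ C : ℝ, 1 ≤ C ∧ ∀ t : ℝ, 0 ≤ t →
        (1 / C) * srwReturn G o (C * t) ≤ dynReturn G μ p o t ∧
        dynReturn G μ p o t ≤ C * srwReturn G o (t / C)) ∧
    (∀ (V : Type) (G : SimpleGraph V) [G.LocallyFinite], G.Connected →
      ∀ (o : V) (d : ℕ), (∀ x, G.degree x ≤ d) → Sofic G o d →
      ∀ μ p : ℝ, 0 < μ → 0 < p → p ≤ 1 → ∀ t : ℝ, 0 ≤ t →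
        srwReturn G o t ≤ dynReturn G μ p o t ∧
        dynReturn G μ p o t ≤ srwReturn G o (cst μ p d * t) + Real.exp (-(cst μ p d * t)) ∧
        dynReturn G μ p o t ≤ max 2 (max (1 / cst μ p d) (d / cst μ p d)) *
          srwReturn G o (t / max 2 (max (1 / cst μ p d) (d / cst μ p d)))) ∧
    (∀ (V : Type) (G : SimpleGraph V) [G.LocallyFinite], G.Connected →
      (∀ x y : V, ∃ φ : G ≃g G, φ x = y) →
      (∀ δ : ℝ, 0 < δ → ∃ A : Finset V, A.Nonempty ∧ ((bd G A).card : ℝ) ≤ δ * A.card) →
      ∀ o : V, Sofic G o (G.degree o)) ∧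
    (∀ (Γ : Type) [Group Γ], ResFin Γ → ∀ (S : Finset Γ) (h1 : (1 : Γ) ∉ S)
      (hinv : ∀ s ∈ S, s⁻¹ ∈ S) (o : Γ), Sofic (cay S h1 hinv) o S.card) := by
  refine ⟨fun V G _ hG htr μ p hμ hp hp1 o => comparison G hG htr μ p hμ hp hp1 o,
    fun V G _ hG o d hd hS μ p hμ hp hp1 t ht => ?_,
    fun V G _ hG htr hF o => amen_sofic G hG _ (fun x => ?_) o (fun x => htr o x) hF,
    fun Γ _ hΓ S h1 hinv o => cay_sofic hΓ S h1 hinv o⟩
  · rw [cst_eq]
    have hup := sofic_upper G hG o d hd hS μ p hμ hp hp1 t ht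
    refine ⟨sofic_lower G hG o d hd hS μ p hμ hp.le hp1 t ht, hup, ?_⟩
    have hcpos := cc_pos μ p hμ hp d
    obtain ⟨c, hc⟩ : ∃ c, c = cc μ p d := ⟨_, rfl⟩
    rw [← hc] at hcpos hup ⊢
    obtain ⟨C, hC⟩ : ∃ C, C = max 2 (max (1 / c) (d / c)) := ⟨_, rfl⟩
    rw [← hC]
    have hC2 : 2 ≤ C := hC ▸ le_max_left _ _
    have hC1 : 1 / c ≤ C := hC ▸ (le_max_left _ _).trans (le_max_right _ _)
    have hCd : d / c ≤ C := hC ▸ (le_max_right _ _).trans (le_max_right _ _)
    have hCpos : 0 < C := by linarith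
    have hd0 : (0:ℝ) ≤ d := Nat.cast_nonneg _
    have hCc : t / C ≤ c * t := by
      rw [div_le_iff₀ hCpos]
      have : 1 ≤ c * C := by
        rw [div_le_iff₀ hcpos] at hC1; linarith
      nlinarith
    have h2 := srwReturn_anti G o (t / C) (c * t) (by positivity) hCc
    have h3 := srwReturn_lower G o (t / C) (by positivity)
    have hdo : (G.degree o : ℝ) ≤ d := by exact_mod_cast hd o
    have h4 : Real.exp (-(c * t)) ≤ Real.exp (-(G.degree o * (t / C))) := by
      refine Real.exp_le_exp.2 (neg_le_neg ?_)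
      have h5 : (d:ℝ) ≤ c * C := by rw [div_le_iff₀ hcpos] at hCd; linarith
      rw [mul_div_assoc', div_le_iff₀ hCpos]
      nlinarith
    have h5 : 0 ≤ srwReturn G o (t / C) := (Real.exp_nonneg _).trans h3
    have h6 : 2 * srwReturn G o (t / C) ≤ C * srwReturn G o (t / C) :=
      mul_le_mul_of_nonneg_right hC2 h5
    linarith
  · obtain ⟨φ, hφ⟩ := htr o x
    have h1 := SimpleGraph.Iso.degree_eq φ o
    rw [hφ] at h1
    exact h1.le

end Pool.Agent.Results.MP_2a8190_pr.UniformComparison
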